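import Pool.Agent.H92.HB.Stm

/-!
# Module TORS of the project HB: no point of order `p` over `F`
-/

set_option autoImplicit false
set_option linter.all false

open NumberField IsDedekindDomain WeierstrassCurve
open scoped Classical

namespace Pool.Agent.H12.HB

open Pool.Agent.TH115.GD (act ak rs Pt incl act_act act_inj fixed_point rs_act_incl)
open Pool.Agent.Y125.DQ (act_congr)
open Pool.Agent.H92.HB Pool.Agent.H92P
open Pool.Agent.E8helper21 (castPt)

theorem bc_self {k : Type} [Field k] [NumberField k] (a b : 𝓞 k) :
    (cu k a b).baseChange k = cu k a b := by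
  show (cu k a b).map (algebraMap k k) = cu k a b
  rw [Algebra.algebraMap_self, WeierstrassCurve.map_id]

/-- no torsion over `F`, for the base change of the curve -/
theorem tors_pt {k F : Type} [Field k] [NumberField k] [Field F] [NumberField F] [Algebra k F]
    [IsGalois k F] {p n : ℕ} (hp : p.Prime) (hn : Module.finrank k F = p ^ n) {a b : 𝓞 k}
    (hfin : Finite (cu k a b).toAffine.Point) (hc : ¬ p ∣ Nat.card (cu k a b).toAffine.Point)
    (P : Pt (cu k a b) F) (hP : p • P = 0) : P = 0 := by
  obtain ⟨e⟩ := exists_Ek (k := k) (K := F) (V := cu k a b)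
  have hfin' : Finite (Pt (cu k a b) k) := cast_fin (bc_self a b).symm hfin
  haveI : Finite (Ek F (cu k a b)) := Finite.of_equiv _ e
  have hc' : ¬ p ∣ Nat.card (Ek F (cu k a b)) := by
    rw [← Nat.card_congr e]
    show ¬ p ∣ Nat.card ((cu k a b).baseChange k).toAffine.Point
    rw [cast_card (bc_self a b)]
    exact hc
  have h1 : act (cu k a b) (incl k F (AlgebraicClosure F)) P ∈ EK F (cu k a b) := fun σ =>
    rs_act_incl (cu k a b) σ P
  have h2 := tors_K hp hn hc' h1 (by rw [← map_nsmul, hP, map_zero])
  exact act_inj (cu k a b) (incl k F (AlgebraicClosure F)) (h2.trans (map_zero _).symm)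

theorem t_TORS : S_TORS := by
  intro k F _ _ _ _ _ _ p n hp hn a b hΔ hfin hc
  refine ⟨fun P hP => ?_, fun M j t ht => ?_⟩
  · have e1 : (cu k a b).baseChange F = cu F a b := cu_map a b
    have h1 : (castPt e1).symm P = 0 := by
      refine tors_pt hp hn hfin hc ((castPt e1).symm P) ?_
      rw [← map_nsmul, hP, map_zero]
    rwa [map_eq_zero_iff _ (castPt e1).symm.injective] at h1
  · have key : ∃ P0 : Pt (cu k a b) F, act (cu k a b) j P0 = t.1 := by
      letI : Algebra F (AlgebraicClosure k) := j.toRingHom.toAlgebra
      haveI : IsScalarTower k F (AlgebraicClosure k) :=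
        IsScalarTower.of_algebraMap_eq fun x => (j.commutes x).symm
      haveI : IsGalois k (AlgebraicClosure k) := ⟨⟩
      haveI : IsGalois F (AlgebraicClosure k) := IsGalois.tower_top_of_isGalois k F _
      obtain ⟨P0, hP0⟩ := fixed_point (K := k) (F := F) (Ω := AlgebraicClosure k) (cu k a b) t.1
        (fun τ => by
          have h := ht (τ.restrictScalars k) (fun x => τ.commutes x)
          have h2 := congrArg Subtype.val h
          rw [tor_smul] at h2
          exact h2)
      refine ⟨P0, ?_⟩
      rw [← hP0]
      exact act_congr (cu k a b) (fun x => rfl) P0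
    obtain ⟨P0, hP0⟩ := key
    have h1 : (p ^ M : ℕ) • P0 = 0 := by
      apply act_inj (cu k a b) j
      rw [map_nsmul, hP0, map_zero]
      exact t.2
    have h2 : P0 = 0 := sha_pow' (fun s hs => tors_pt hp hn hfin hc s hs) M P0 h1
    apply Subtype.ext
    rw [← hP0, h2, map_zero]
    rfl

end Pool.Agent.H12.HB
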